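import Pool.Agent.helper77.BND.SpecB

/-!
MP_376aaf, project bnd, row BCO: colimits
-/

set_option autoImplicit false

open scoped Topology Matrix
open Filter Finset

namespace Pool.Agent.BND

open Pool.Agent.CZ Pool.Agent.PV

/-- raising a representative -/
theorem BCO_up (G : ℕ → Type) [∀ m, AddCommGroup (G m)] (K H : Type) [AddCommGroup K] [AddCommGroup H] (i : ∀ m, G m →+ G (m + 1))
    (a : ∀ m, G m →+ K) (b : ∀ m, G m →+ H) (ha : ∀ m w, a (m + 1) (i m w) = a m w) (hb : ∀ m w, b (m + 1) (i m w) = b m w)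
    (m m' : ℕ) (h : m ≤ m') (w : G m) : ∃ w' : G m', a m' w' = a m w ∧ b m' w' = b m w := by
  induction m', h using Nat.le_induction with
  | base => exact ⟨w, rfl, rfl⟩
  | succ k _ ih =>
    obtain ⟨w', h1, h2⟩ := ih
    exact ⟨i k w', by rw [ha, h1], by rw [hb, h2]⟩

/-- equal images in `K` give equal images in `H` -/
theorem BCO_eq (G : ℕ → Type) [∀ m, AddCommGroup (G m)] (K H : Type) [AddCommGroup K] [AddCommGroup H] (i : ∀ m, G m →+ G (m + 1))
    (a : ∀ m, G m →+ K) (b : ∀ m, G m →+ H) (ha : ∀ m w, a (m + 1) (i m w) = a m w) (hb : ∀ m w, b (m + 1) (i m w) = b m w)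
    (hab : ∀ m w, a m w = 0 → b m w = 0) (m m' : ℕ) (w : G m) (w' : G m') (h : a m w = a m' w') : b m w = b m' w' := by
  obtain ⟨w1, h1, h2⟩ := BCO_up G K H i a b ha hb m (max m m') (le_max_left _ _) w
  obtain ⟨w2, h3, h4⟩ := BCO_up G K H i a b ha hb m' (max m m') (le_max_right _ _) w'
  have h5 : a (max m m') (w1 - w2) = 0 := by rw [map_sub, h1, h3, h, sub_self]
  have h6 := hab _ _ h5
  rw [map_sub, h2, h4] at h6
  exact sub_eq_zero.1 h6

theorem BCO : BCO_stmt := by
  intro G _ K H _ _ i a b ha hb hab hsa hsb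
  have key : ∀ (m m' : ℕ) (w : G m) (w' : G m'), a m w = a m' w' → b m w = b m' w' :=
    BCO_eq G K H i a b ha hb fun m w h => (hab m w).1 h
  have key' : ∀ (m m' : ℕ) (w : G m) (w' : G m'), b m w = b m' w' → a m w = a m' w' :=
    BCO_eq G H K i b a hb ha fun m w h => (hab m w).2 h
  choose M W hW using hsa
  let f : K → H := fun z => b (M z) (W z)
  have hf : ∀ m w, f (a m w) = b m w := fun m w => key _ _ _ _ (hW (a m w))
  have hadd : ∀ z z' : K, f (z + z') = f z + f z' := by
    intro z z'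
    obtain ⟨w1, h1, h2⟩ := BCO_up G K H i a b ha hb (M z) (max (M z) (M z')) (le_max_left _ _) (W z)
    obtain ⟨w2, h3, h4⟩ := BCO_up G K H i a b ha hb (M z') (max (M z) (M z')) (le_max_right _ _) (W z')
    have h5 : z + z' = a (max (M z) (M z')) (w1 + w2) := by rw [map_add, h1, h3, hW, hW]
    rw [h5, hf, map_add, h2, h4]
  let φ : K →+ H := AddMonoidHom.mk' f hadd
  have hφ : Function.Bijective φ := by
    refine ⟨?_, ?_⟩
    · intro z z' h
      have h1 : b (M z) (W z) = b (M z') (W z') := h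
      have h2 := key' _ _ _ _ h1
      rwa [hW, hW] at h2
    · intro y
      obtain ⟨m, w, h⟩ := hsb y
      exact ⟨a m w, by rw [← h]; exact hf m w⟩
  exact ⟨AddEquiv.ofBijective φ hφ, hf⟩

end Pool.Agent.BND
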