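import Pool.Agent.helper77.BND.SpecB

/-!
MP_376aaf, project bnd, row BTH: the traces of the level and of the higher levels
-/

set_option autoImplicit false

open scoped Topology Matrix
open Filter Finset

namespace Pool.Agent.BND

open Pool.Agent.CZ Pool.Agent.PV

theorem BTH : BTH_stmt := by
  intro H _ B M P g th H' hT m z d
  induction d with
  | zero => rfl
  | succ d ih =>
    rw [← ih]
    have h1 : ∀ v ∈ range (B.L (m + d)).n, MZ B M m z d v • th (m + d) v =
        ∑ v' ∈ range (B.L (m + d + 1)).n, ((M (m + d) v' v : ℤ) * MZ B M m z d v) • th (m + d + 1) v' := by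
      intro v hv
      rw [hT.th_eq (m + d) v (mem_range.1 hv), smul_sum]
      refine sum_congr rfl fun v' _ => ?_
      rw [← natCast_zsmul, smul_smul, mul_comm]
    rw [sum_congr rfl h1, sum_comm]
    refine sum_congr rfl fun v' _ => ?_
    rw [← sum_smul]
    rfl

end Pool.Agent.BND
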