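import Pool.Agent.helper53.BND.SpecT

/-!
MP_376aaf, project bnd, row TST: the invariant states are the points of `K`
-/

set_option autoImplicit false

open scoped Topology
open Finset Filter

namespace Pool.Agent.BND

open Pool.Agent.CZ Pool.Agent.PV Pool.Agent.PVH

theorem TST_ext {X : Type} [TopologicalSpace X] {α : X ≃ₜ X} (a b : InvSt α) (h : a.φ = b.φ) : a = b := by
  cases a
  cases b
  cases h
  rfl

theorem TST (hTPT : TPT_stmt) (hTLI : TLI_stmt) (hTWT : TWT_stmt) (hTIN : TIN_stmt) (hTIJ : TIJ_stmt) (hTUQ : TUQ_stmt) (hTSU : TSU_stmt) (hTLL : TLL_stmt) : TST_stmt := by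
  intro E _ _ _ _ _ _ _ K H _ ρ g hK B M th H' hB hT α hα hα'
  obtain ⟨x, hx⟩ := hTPT B M hB
  obtain ⟨Φ, haff, hpos, hone, hlim⟩ := hTLI E K H ρ g hK B M th H' hB hT x hx
  have hw : ∀ t : K, IsWt B M (fun m v => ρ (th m v) t) := hTWT E K H ρ g hK B M th H' hT
  have hten : ∀ (t : K) (f : C(↥(XS B), ℝ)),
      Tendsto (fun m => B.lev x (fun m v => ρ (th m v) t) m f) atTop (𝓝 (Φ f t)) := by
    intro t f
    rw [Metric.tendsto_atTop]
    intro ε hε
    obtain ⟨m₀, hm₀⟩ := hlim f (ε / 2) (by positivity)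
    refine ⟨m₀, fun m hm => ?_⟩
    rw [Real.dist_eq]
    exact (hm₀ m hm t).trans_lt (by linarith)
  let ev : K → (C(↥(XS B), ℝ) →ₗ[ℝ] ℝ) := fun t =>
    { toFun := fun f => Φ f t
      map_add' := fun f g => by rw [map_add]; rfl
      map_smul' := fun c f => by rw [map_smul]; rfl }
  have hinv : ∀ (t : K) (f : C(↥(XS B), ℝ)), ev t (f.comp (α : C(↥(XS B), ↥(XS B)))) = ev t f :=
    fun t f => hTIN B M hB α hα hα' x hx _ (hw t) (ev t) (hten t) f
  have hev1 : ∀ t : K, ev t 1 = 1 := by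
    intro t
    show Φ 1 t = 1
    rw [hone]
    rfl
  let φ : K → InvSt α := fun t => ⟨ev t, fun f hf => hpos f hf t, hev1 t, hinv t⟩
  have hφ : ∀ (t : K) (f : C(↥(XS B), ℝ)), (φ t).φ f = Φ f t := fun _ _ => rfl
  refine ⟨φ, ⟨?_, ?_⟩, ?_, ?_⟩
  · intro t t' h
    refine hTUQ E K H ρ g hK B M th H' hT t t' ?_
    intro m v hv
    refine hTIJ B M hB x hx _ _ (hw t) (hw t') ?_ m v hv
    intro f
    refine ⟨Φ f t, hten t f, ?_⟩
    have h2 : Φ f t = Φ f t' := by rw [← hφ, ← hφ, h]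
    rw [h2]
    exact hten t' f
  · intro ψ
    obtain ⟨t, ht⟩ := hTSU E K H ρ g hK B M th H' hB hT α hα hα' x hx Φ haff hpos hone hlim ψ
    exact ⟨t, TST_ext _ _ (LinearMap.ext fun f => (ht f).symm)⟩
  · intro f
    exact ⟨Φ f, haff f, fun t => rfl⟩
  · intro k F _ f hf t
    have h1 := (hten t f).comp (tendsto_atTop_mono (fun d : ℕ => Nat.le_add_left d k) tendsto_id)
    refine h1.congr fun d => ?_
    exact hTLL B M hB x hx (fun m v => ρ (th m v) t) k F f hf d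

end Pool.Agent.BND
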