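import Pool.Agent.helper77.BND.SpecY

/-!
MP_376aaf, project bnd, row YUN: invertibility of matrices of functions
-/

set_option autoImplicit false

open scoped Topology Matrix
open Filter

namespace Pool.Agent.BND

open Pool.Agent.CZ Pool.Agent.PV

theorem YUN : YUN_stmt := by
  refine ⟨?_, ?_⟩
  · intro X _ _ ι _ _ a h
    rw [Matrix.isUnit_iff_isUnit_det, ContinuousMap.isUnit_iff_forall_ne_zero]
    intro x hx
    have h1 := h x
    rw [Matrix.isUnit_iff_isUnit_det] at h1
    have h2 : (ContinuousMap.evalStarAlgHom ℂ ℂ x : C(X, ℂ) →⋆ₐ[ℂ] ℂ) a.det = (a.map fun f => f x).det :=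
      RingHom.map_det ((ContinuousMap.evalStarAlgHom ℂ ℂ x : C(X, ℂ) →⋆ₐ[ℂ] ℂ) : C(X, ℂ) →+* ℂ) a
    rw [← h2] at h1
    exact h1.ne_zero hx
  · intro ι _ _ a h
    rw [Matrix.isUnit_iff_isUnit_det]
    refine isUnit_iff_ne_zero.2 (det_ne_zero_of_sum_row_lt_diag ?_)
    intro k
    have hc : (0 : ℝ) < Fintype.card ι := by
      have : 0 < Fintype.card ι := Fintype.card_pos_iff.2 ⟨k⟩
      exact_mod_cast this
    set c : ℝ := (Fintype.card ι : ℝ) with hcdef
    have h0 : ∀ i j, ‖a i j - (1 : Matrix ι ι ℂ) i j‖ ≤ 1 / (2 * c) := by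
      intro i j
      rw [le_div_iff₀ (by positivity)]
      have := h i j
      nlinarith
    have h1 : ∑ j ∈ Finset.univ.erase k, ‖a k j‖ ≤ (c - 1) * (1 / (2 * c)) := by
      calc ∑ j ∈ Finset.univ.erase k, ‖a k j‖ ≤ ∑ j ∈ Finset.univ.erase k, (1 / (2 * c)) := by
            refine Finset.sum_le_sum fun j hj => ?_
            have h2 := h0 k j
            rwa [Matrix.one_apply_ne (Finset.ne_of_mem_erase hj).symm, sub_zero] at h2
        _ = (c - 1) * (1 / (2 * c)) := by
            rw [Finset.sum_const, nsmul_eq_mul, Finset.card_erase_of_mem (Finset.mem_univ k), Finset.card_univ,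
              Nat.cast_sub (Fintype.card_pos_iff.2 ⟨k⟩), Nat.cast_one]
    have h2 : 1 - 1 / (2 * c) ≤ ‖a k k‖ := by
      have h3 := h0 k k
      rw [Matrix.one_apply_eq] at h3
      have h4 : ‖(1 : ℂ)‖ ≤ ‖a k k‖ + ‖a k k - 1‖ := by
        calc ‖(1 : ℂ)‖ = ‖a k k - (a k k - 1)‖ := by rw [sub_sub_cancel]
          _ ≤ ‖a k k‖ + ‖a k k - 1‖ := norm_sub_le _ _
      rw [norm_one] at h4
      linarith
    have h5 : (c - 1) * (1 / (2 * c)) < 1 - 1 / (2 * c) := by
      have h6 : c * (1 / (2 * c)) = 1 / 2 := by field_simp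
      have : (c - 1) * (1 / (2 * c)) = 1 / 2 - 1 / (2 * c) := by rw [sub_mul, h6, one_mul]
      rw [this]
      linarith
    linarith

end Pool.Agent.BND
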